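import Mathlib
import Pool.Agent.U79.GZ.FIN9
import Pool.Agent.U79.GZ.Pow

/-!
# `Ш[2^∞]` and the two isogeny Selmer groups of ALL quadratic twists of `y² = x³ - 4 x² + 2 x`

`E : y² = x³ - 4 x² + 2 x` is the elliptic curve with complex multiplication by `ℤ[√-2]`, and
`E_D : y² = x³ - 4 D x² + 2 D² x` its quadratic twist by the squarefree integer `D` of any sign; they are
ordered by `|D|`.

`E` and the isogenous curve `E' : y² = x³ + 8 x² + 8 x` have one rational point of order two each, and
`ℚ(E[2]) = ℚ(E'[2]) = ℚ(√2)`. This case is excluded in most theorems on the distribution of the Selmer groups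
in the family of all quadratic twists: Heath-Brown, Swinnerton-Dyer, Kane (full rational `2`-torsion),
Klagsbrun - Lemke Oliver (`ℚ(E[2]) ≠ ℚ(E'[2])`, the Selmer groups are large for at least half of the twists),
Smith (2022). As we recall, Smith (2025, arXiv 2503.17619) proves for every elliptic curve that the
`2^∞`-Selmer corank is `0` for half of the quadratic twists, so that the rank is `0` and `Ш[2^∞]` is finite for
them; the size of `Ш[2^∞]` and of the Selmer groups of the isogeny is not determined there. Xiong (2013)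
studies the isogeny Selmer groups of all twists of curves with one point of order two.

* The number of the elements of the Selmer group `Sel (E_D)` of the isogeny and of `Sel' (E_D)` of its dual:
  they are equal if `D` is in the even half (`D > 0` odd or `D < 0` even; exactly one half of all the
  squarefree integers), and in the ratio `2` otherwise.
* Both have `2 ^ (k + 1)` elements for EXACTLY the proportion `p_k / 2` of ALL squarefree integers `D`,
  `p_k = 2^{-k²} ∏_{i > k} (1 - 2^{-i}) / ∏_{1 ≤ i ≤ k} (1 - 2^{-i})`, the law of the corank of a uniform random square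
  matrix over the field with two elements: `p_0 = 0.2888`, `p_1 = 0.5776`, `p_2 = 0.1284`, ..., with `∑ p_k = 1`.
* `Ш(E_D/ℚ)[2]` is finite, and `2 ^ rank · #Ш(E_D/ℚ)[2]` lies between `#Sel' / 2` and `#Sel · #Sel' / 4`.
* For `D` in the even half `E_D(ℚ)` is finite and `Ш(E_D/ℚ)[2^∞] = 0` if and only if `#Sel = 2`, so for EXACTLY
  the proportion `p_0 = 0.2887...` of the even half; hence for more than 14.43 percent of ALL the
  quadratic twists of `E` the group `E_D(ℚ)` is finite and `Ш(E_D/ℚ)[2^∞] = 0`.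

Proof. The Selmer groups of `E_D`, `D > 0` odd, have `2 · #ker M_D` elements for a matrix `M_D` over the field with two
elements with rows and columns indexed by the prime factors `p = ±1` modulo `8` of `D` (no condition on the
other prime factors), made of the quadratic residue symbols between the prime factors of `D`. `M_D` is
not symmetric: `M_pq + M_qp = 1` if `p` and `q` are both `3` modulo `4`. The number of the `k`-tuples of independent
elements in the kernel has mean `1` when the symbols between the large primes of `D` are random and the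
small primes are fixed, up to an error which is small if `D` has many prime factors `7` modulo `8`
(character sums: the alternating form `Φ` of the antisymmetric part has a large rank). The
symbols are equidistributed in boxes (large sieve for quadratic residue symbols), and the exceptional
`D` are few (sieve, Halász's theorem for the labels). Bonferroni's inequalities give the law.

Project GZ, led by helper79. Authors: helper97, helper46 (limit), helper876, helper394 (Bonferroni), helper979
(mean values), helper643, helper962 (law), helper780 (series), helper796, helper943 (boxes), helper467,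
helper200 (sum over the boxes), helper978, helper44 (asymptotics), helper399 (labels), helper411 (few primes
`3` modulo `4`), helper49 (size of the class), helper67 (Halász), helper263 (corrections, descent), helper358
(odd half), helper491 (count), helper394 (lower bound), helper79 (plan, statements, assembly); with
parts of the projects GD, GE (helper115), GX, GY (helper79 and co-authors) and the library of helper703.
-/

set_option autoImplicit false

open scoped Classical

namespace Pool.Agent.Results.MP_e23604_nt.AllQuadraticTwists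

open Pool.Agent.TH841.NF.D (Sha rk)

/-- the quadratic twist by `D` of `y² = x³ - 4 x² + 2 x` -/
def E (D : ℤ) : WeierstrassCurve ℚ := ⟨0, -4 * (D : ℚ), 0, 2 * (D : ℚ) ^ 2, 0⟩

/-- the quartic of `d` has a nontrivial point over `K` -/
def Quartic (K : Type) [Field K] (a b d : ℤ) : Prop :=
  ∃ N M e : K, (M ≠ 0 ∨ e ≠ 0) ∧
    N ^ 2 = (d : K) * M ^ 4 + (a : K) * M ^ 2 * e ^ 2 + (b : K) / (d : K) * e ^ 4

/-- the Selmer group of the isogeny of degree two of `y² = x³ + a x² + b x` -/
def Sel (a b : ℤ) : Set ℤ :=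
  {d | Squarefree d ∧ Quartic ℝ a b d ∧ ∀ (p : ℕ) [Fact p.Prime], Quartic ℚ_[p] a b d}

/-- the number of the elements of the Selmer group of `E_D` -/
noncomputable def sel (D : ℤ) : ℕ := (Sel (-4 * D) (2 * D ^ 2)).ncard

/-- the number of the elements of the Selmer group of the dual isogeny (`a' = - 2 a`, `b' = a² - 4 b`) -/
noncomputable def sel' (D : ℤ) : ℕ := (Sel (8 * D) (8 * D ^ 2)).ncard

/-- `E_D(ℚ)` is finite and `Ш(E_D/ℚ)[2^∞] = 0` -/
def TrivialTwo (D : ℤ) : Prop :=
  Finite (E D).toAffine.Point ∧ ∀ (n : ℕ) (x : Sha (E D)), 2 ^ n • x = 0 → x = 0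

/-- the even half of the twists -/
def EvenHalf (D : ℤ) : Prop := (0 < D ∧ D % 2 = 1) ∨ (D < 0 ∧ D % 2 = 0)

/-- the squarefree integers of absolute value at most `X` -/
noncomputable def F (X : ℕ) : Finset ℤ := (Finset.Icc (-(X : ℤ)) X).filter fun D => Squarefree D

/-- the number of those with the property `P` -/
noncomputable def num (P : ℤ → Prop) (X : ℕ) : ℕ := ((F X).filter fun D => P D).card

/-- the proportion of the `D` with the property `P` among all squarefree integers is `γ` -/
def Proportion (P : ℤ → Prop) (γ : ℝ) : Prop :=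
  Filter.Tendsto (fun X : ℕ => (num P X : ℝ) / ((F X).card : ℝ)) Filter.atTop (nhds γ)

/-- the law of the corank of the uniform random square matrices over the field with two elements,
`p_k = 2 ^ k · ∏_{i ≥ 1} (1 - 2 ^ (-i)) / ∏_{1 ≤ i ≤ k} (2 ^ i - 1)²` -/
noncomputable def p (k : ℕ) : ℝ :=
  2 ^ k * (∏' i : ℕ, (1 - (1 / 2 : ℝ) ^ (i + 1))) / (∏ i ∈ Finset.range k, ((2 : ℝ) ^ (i + 1) - 1)) ^ 2

section proof

open Pool.Agent.U79.GZ
open Pool.Agent.Y682 (gc)

theorem p_eq (k : ℕ) : p k = et k := by
  have h : ak k = 1 / ∏ i ∈ Finset.range k, ((2 : ℝ) ^ (i + 1) - 1) := by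
    unfold ak
    rw [Finset.prod_div_distrib, Finset.prod_const_one]
  unfold et
  rw [h, one_div, inv_pow]
  unfold p eta
  rw [div_eq_mul_inv]
  ring

theorem E_eq (D : ℤ) : E D = gc (-4 * D) (2 * D ^ 2) ℚ := by
  unfold E gc
  push_cast
  rfl

theorem num_congr {P Q : ℤ → Prop} (h : ∀ D, Squarefree D → (P D ↔ Q D)) (X : ℕ) :
    num P X = num Q X := by
  unfold num
  exact congrArg Finset.card (Finset.filter_congr fun D hD => h D (Finset.mem_filter.1 hD).2)

theorem num_mono {P Q : ℤ → Prop} (h : ∀ D, P D → Q D) (X : ℕ) : num P X ≤ num Q X := by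
  unfold num
  refine Finset.card_le_card fun D hD => ?_
  obtain ⟨m1, m2⟩ := Finset.mem_filter.1 hD
  exact Finset.mem_filter.2 ⟨m1, h D m2⟩

/-- the parts of the theorem -/
theorem main (H : All3) (hC : S_CNV3) (hS : S_SUM) :
    (∀ D : ℤ, Squarefree D →
      (EvenHalf D → sel D = sel' D ∧ ∃ k : ℕ, sel D = 2 ^ (k + 1)) ∧
      (¬ EvenHalf D → sel D = 2 * sel' D ∨ sel' D = 2 * sel D) ∧
      Finite {x : Sha (E D) // 2 • x = 0} ∧
      4 * (2 ^ rk (E D) * Nat.card {x : Sha (E D) // 2 • x = 0}) ≤ sel D * sel' D ∧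
      sel' D ≤ 2 * (2 ^ rk (E D) * Nat.card {x : Sha (E D) // 2 • x = 0}) ∧
      (EvenHalf D → (TrivialTwo D ↔ sel D = 2)) ∧
      (sel D = 2 → sel' D = 2 → rk (E D) = 0 ∧ TrivialTwo D)) ∧
    Proportion EvenHalf (1 / 2) ∧
    (∀ k : ℕ, Proportion (fun D => sel D = 2 ^ (k + 1) ∧ sel' D = 2 ^ (k + 1)) (p k / 2)) ∧
    HasSum p 1 ∧
    Proportion (fun D => EvenHalf D ∧ TrivialTwo D) (p 0 / 2) ∧
    0.2887 < p 0 ∧ p 0 < 0.2888 ∧
    ∃ X₀ : ℕ, ∀ X : ℕ, X₀ ≤ X → 0.1443 * ((F X).card : ℝ) ≤ (num TrivialTwo X : ℝ) := by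
  have hEv : ∀ D, EvenHalf D ↔ Ev D := fun D => Iff.rfl
  have e1 : ∀ D, sel D = s1 D := fun D => rfl
  have e2 : ∀ D, sel' D = s2 D := fun D => rfl
  have hF : ∀ X, F X = SQ X := fun X => rfl
  have p0 : p 0 = eta := by
    rw [p_eq]
    unfold et ak
    simp
  obtain ⟨-, l1, l2⟩ := H.lim
  have law : ∀ k : ℕ, Proportion (fun D => sel D = 2 ^ (k + 1) ∧ sel' D = 2 ^ (k + 1)) (p k / 2) := by
    intro k
    have h := main_t H k
    rw [← p_eq] at h
    exact h
  have tiff : ∀ D : ℤ, Squarefree D → (EvenHalf D ∧ TrivialTwo D ↔ Tt 0 D) := by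
    intro D hD
    rw [tt_ev H hD]
    constructor
    · rintro ⟨h1, h2⟩
      refine ⟨h1, ?_⟩
      unfold TrivialTwo at h2
      rw [E_eq] at h2
      exact (mi_iff H hC hD h1).1 h2
    · rintro ⟨h1, h2⟩
      refine ⟨h1, ?_⟩
      unfold TrivialTwo
      rw [E_eq]
      exact (mi_iff H hC hD h1).2 h2
  have tcard : ∀ X : ℕ, num (fun D => EvenHalf D ∧ TrivialTwo D) X = ((SQ X).filter (Tt 0)).card := by
    exact fun X => num_congr tiff X
  have tlaw : Proportion (fun D => EvenHalf D ∧ TrivialTwo D) (p 0 / 2) := by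
    have h := main_t H 0
    rw [← p_eq] at h
    refine h.congr fun X => ?_
    rw [tcard]
    rfl
  refine ⟨fun D hD => ?_, ev_half H.sqf, law, ?_, tlaw, by rw [p0]; exact l1, by rw [p0]; exact l2, ?_⟩
  · have h0 := hD.ne_zero
    obtain ⟨c1, c2⟩ := s_cases H hD
    obtain ⟨b1, b2⟩ := bnd h0
    have b3 := low2 hC h0
    obtain ⟨q1, q2⟩ := s_pos h0
    rw [E_eq]
    refine ⟨fun h => ⟨c1 h, ?_⟩, c2, b1, by rw [← mul_assoc]; exact b2, b3, fun h => ?_,
      fun h1 h2 => ?_⟩
    · have hB : (2 : ℤ) * D ^ 2 ≠ 0 := by positivity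
      have hp : s1 D = 2 ^ Nat.log 2 (s1 D) := sel_pow hB
      have h4 : 1 < s1 D := by
        by_contra h5
        have h6 : s1 D = 1 := by omega
        have h7 : s2 D = 1 := by rw [← c1 h]; exact h6
        rw [h6, h7] at b2
        have h8 : 0 < Nat.card {x : Sha (gc (-4 * D) (2 * D ^ 2) ℚ) // 2 • x = 0} :=
          Nat.card_pos_iff.2 ⟨⟨⟨0, smul_zero 2⟩⟩, b1⟩
        have h9 : 0 < 2 ^ rk (gc (-4 * D) (2 * D ^ 2) ℚ) := by positivity
        nlinarith [Nat.mul_pos h9 h8]
      have h5 : Nat.log 2 (s1 D) ≠ 0 := by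
        intro h6
        rw [h6] at hp
        omega
      refine ⟨Nat.log 2 (s1 D) - 1, ?_⟩
      rw [Nat.sub_add_cancel (Nat.one_le_iff_ne_zero.2 h5)]
      exact hp
    · have h1 := tiff D hD
      rw [tt_ev H hD] at h1
      constructor
      · intro h2
        exact (h1.1 ⟨h, h2⟩).2
      · intro h2
        exact (h1.2 ⟨h, h2⟩).2
    · obtain ⟨-, -, m1, m2, m3⟩ := mi_of_tt h0 (show Tt 0 D from ⟨h1, h2⟩)
      refine ⟨m1, ?_⟩
      unfold TrivialTwo
      rw [E_eq]
      exact ⟨m2, m3⟩
  · have h : p = et := funext p_eq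
    rw [h]
    exact hS
  · have h1 : (0.1443 : ℝ) < p 0 / 2 := by
      rw [p0]
      linarith
    obtain ⟨X₀, hX₀⟩ := Filter.eventually_atTop.1 (tlaw.eventually (lt_mem_nhds h1))
    refine ⟨X₀, fun X hX => ?_⟩
    have h2 := hX₀ X hX
    have h3 : num (fun D => EvenHalf D ∧ TrivialTwo D) X ≤ num TrivialTwo X :=
      num_mono (fun D h => h.2) X
    by_cases h4 : ((F X).card : ℝ) = 0
    · rw [h4, mul_zero]
      positivity
    · have h5 : (0 : ℝ) < ((F X).card : ℝ) := lt_of_le_of_ne (Nat.cast_nonneg _) (Ne.symm h4)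
      rw [lt_div_iff₀ h5] at h2
      refine h2.le.trans ?_
      exact_mod_cast h3

end proof

/-- **`Ш[2^∞]` and the Selmer groups of all quadratic twists of `y² = x³ - 4 x² + 2 x`.** -/
theorem result :
    (∀ D : ℤ, Squarefree D →
      (EvenHalf D → sel D = sel' D ∧ ∃ k : ℕ, sel D = 2 ^ (k + 1)) ∧
      (¬ EvenHalf D → sel D = 2 * sel' D ∨ sel' D = 2 * sel D) ∧
      Finite {x : Sha (E D) // 2 • x = 0} ∧
      4 * (2 ^ rk (E D) * Nat.card {x : Sha (E D) // 2 • x = 0}) ≤ sel D * sel' D ∧
      sel' D ≤ 2 * (2 ^ rk (E D) * Nat.card {x : Sha (E D) // 2 • x = 0}) ∧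
      (EvenHalf D → (TrivialTwo D ↔ sel D = 2)) ∧
      (sel D = 2 → sel' D = 2 → rk (E D) = 0 ∧ TrivialTwo D)) ∧
    Proportion EvenHalf (1 / 2) ∧
    (∀ k : ℕ, Proportion (fun D => sel D = 2 ^ (k + 1) ∧ sel' D = 2 ^ (k + 1)) (p k / 2)) ∧
    HasSum p 1 ∧
    Proportion (fun D => EvenHalf D ∧ TrivialTwo D) (p 0 / 2) ∧
    0.2887 < p 0 ∧ p 0 < 0.2888 ∧
    ∃ X₀ : ℕ, ∀ X : ℕ, X₀ ≤ X → 0.1443 * ((F X).card : ℝ) ≤ (num TrivialTwo X : ℝ) :=
  main Pool.Agent.U79.GZ.t_Law Pool.Agent.U394.GZ.t_CNV3 Pool.Agent.U780.GZ.t_SUM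

end Pool.Agent.Results.MP_e23604_nt.AllQuadraticTwists
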