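import Mathlib
import Pool.Agent.U115.GE.Dens
import Pool.Agent.U115.GE.Ex

/-!
# `Ш[2^∞]` in families of quadratic twists of every elliptic curve with a rational isogeny of degree two

`E : y² = x³ + a x² + b x` with integers `a`, `b` such that neither `b` nor `c = a² - 4 b` is a square
(`E` and the isogenous curve `E'` have exactly one rational point of order two each), and
`E_D : y² = x³ + a D x² + b D² x` its quadratic twist by `D`. `Sel a b` is the Selmer group of the
isogeny of degree two, a set of squarefree integers `d`: the quartic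
`N² = d M⁴ + a M² e² + (b / d) e⁴` has points over `ℝ` and over all `ℚ_p`; the Selmer group of the dual
isogeny is `Sel (-2 a) (a² - 4 b)`.

A prime is split if it is `1` modulo `8` and a nonzero square modulo all the odd primes dividing
`b c`, and inert if it is odd and neither `b` nor `c` is a square modulo it. `D` runs over the products of
different split and inert primes, any number of each, with `D = 1` modulo `8` and `D` a square modulo
all the odd primes dividing `b c`. `mat D` is a symmetric matrix over the field with two elements with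
rows and columns indexed by the split prime factors of `D`: quadratic residue symbols between the prime
factors of `D`, and the quadratic character of the roots of `x² + a x + b` on the diagonal. With `s D` the
dimension of its kernel:

* `#Sel(E_D) = 2 ^ s · #Sel(E)`, `#Sel'(E_D) = 2 ^ s · #Sel'(E)`; `Ш(E_D/ℚ)[2]` is finite and
  `4 · 2 ^ rank · #Ш[2] ≤ 4 ^ s · #Sel(E) · #Sel'(E)`; if `E_D(ℚ)` is finite then `#Ш[2] ≥ 2 ^ s`.
* The matrix is nonsingular for exactly the proportion `∏_{i ≥ 0} (1 - 2^{-(2i+1)}) = 0.4194...` of the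
  class; for these `D` one has `4 · 2 ^ rank · #Ш(E_D/ℚ)[2] ≤ #Sel(E) · #Sel'(E)`, independent of `D`.
* If the Selmer groups of `E` itself are as small as possible (`#Sel(E) · #Sel'(E) = 4`), then
  `E_D(ℚ)` is finite and `Ш(E_D/ℚ)[2^∞] = 0` if and only if the matrix is nonsingular, so for exactly the
  proportion `0.4194...` of the class. The curve `X_0(14)` (`a = 13`, `b = 128`) is an example.

The starting point was the special case of `X_0(14)` (`a = 13`, `b = 128`), where the law of the matrices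
is the theorem of the project `Pool/Agent/Y703/CQ` of the starting library (modulus `56`). New here: the
descent for arbitrary `a`, `b` (`Pool/Agent/U115/GE`), and the law of the matrices for a general modulus
(project `GD`, with a general set of residue classes of inert primes).

Authors: helper115 (plan, descent, statements), helper295, helper439, helper2, helper643, helper674,
helper234, helper158, helper998, helper798 (the law of the matrices), helper796 (the bound of the rank by
the Selmer groups), helper739 (good primes).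
-/

set_option autoImplicit false

open scoped Classical

namespace Pool.Agent.Results.MP_e23604_nt.ExactProportionTwoIsogeny

open Pool.Agent.TH841.NF.D (Sha rk)

/-- `y² = x³ + a D x² + b D² x` -/
def E (a b : ℤ) (D : ℕ) : WeierstrassCurve ℚ := ⟨0, (a : ℚ) * (D : ℚ), 0, (b : ℚ) * (D : ℚ) ^ 2, 0⟩

/-- the quartic of `d` has a nontrivial point over `K` -/
def Quartic (K : Type) [Field K] (a b d : ℤ) : Prop :=
  ∃ N M e : K, (M ≠ 0 ∨ e ≠ 0) ∧
    N ^ 2 = (d : K) * M ^ 4 + (a : K) * M ^ 2 * e ^ 2 + (b : K) / (d : K) * e ^ 4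

/-- the Selmer group of the isogeny of degree two of `y² = x³ + a x² + b x` -/
def Sel (a b : ℤ) : Set ℤ :=
  {d | Squarefree d ∧ Quartic ℝ a b d ∧ ∀ (p : ℕ) [Fact p.Prime], Quartic ℚ_[p] a b d}

/-- `n` is `1` modulo `8` and a nonzero square modulo the odd primes dividing `b (a² - 4 b)` -/
def Res (a b : ℤ) (n : ℕ) : Prop := n % 8 = 1 ∧ ∀ l : ℕ, l.Prime → l ≠ 2 →
  (l : ℤ) ∣ b * (a ^ 2 - 4 * b) → ¬ l ∣ n ∧ IsSquare (n : ZMod l)

/-- the inert primes -/
def Inert (a b : ℤ) (q : ℕ) : Prop := q ≠ 2 ∧ ¬ IsSquare (b : ZMod q) ∧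
  ¬ IsSquare ((a ^ 2 - 4 * b : ℤ) : ZMod q)

/-- the class of the numbers `D` -/
def Class (a b : ℤ) (D : ℕ) : Prop := Squarefree D ∧ Res a b D ∧
  ∀ p ∈ D.primeFactors, Res a b p ∨ Inert a b p

/-- the split prime factors of `D` -/
noncomputable def split (a b : ℤ) (D : ℕ) : Finset ℕ := D.primeFactors.filter fun p => Res a b p

/-- `1` if `m` is not a square modulo `p`, and `0` if it is -/
noncomputable def nonsq (p m : ℕ) : ZMod 2 := if IsSquare (m : ZMod p) then 0 else 1

/-- `1` if no root of `x² + a x + b` modulo `p` is a square modulo `p`, and `0` otherwise -/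
noncomputable def theta (a b : ℤ) (p : ℕ) : ZMod 2 :=
  if ∀ x : ZMod p, x ^ 2 + (a : ZMod p) * x + (b : ZMod p) = 0 → ¬ IsSquare x then 1 else 0

/-- The matrix over the field with two elements, with rows and columns indexed by the split prime
factors of `D`: the entry at `(i, j)` is `nonsq i j` for `i ≠ j`, and the entry at `(i, i)` is the sum
of `theta i` and of the `nonsq i l` for all the prime factors `l ≠ i` of `D`. -/
noncomputable def mat (a b : ℤ) (D : ℕ) : Matrix (split a b D) (split a b D) (ZMod 2) :=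
  Matrix.of fun i j =>
    if i = j then theta a b i + ∑ l ∈ D.primeFactors.erase i, nonsq i l else nonsq i j

/-- the dimension of the kernel of the matrix -/
noncomputable def s (a b : ℤ) (D : ℕ) : ℕ := (split a b D).card - (mat a b D).rank

/-- `E_D(ℚ)` is finite and `Ш(E_D/ℚ)[2^∞] = 0` -/
def TrivialTwo (a b : ℤ) (D : ℕ) : Prop :=
  Finite (E a b D).toAffine.Point ∧ ∀ (n : ℕ) (x : Sha (E a b D)), 2 ^ n • x = 0 → x = 0

/-- the proportion of the `D` of the class with the property `P` tends to `γ` -/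
def Proportion (a b : ℤ) (P : ℕ → Prop) (γ : ℝ) : Prop :=
  Filter.Tendsto (fun X : ℕ =>
    (((Finset.Icc 1 X).filter fun D => Class a b D ∧ P D).card : ℝ) /
      (((Finset.Icc 1 X).filter fun D => Class a b D).card : ℝ)) Filter.atTop (nhds γ)

theorem class_iff (a b : ℤ) (D : ℕ) : Class a b D ↔ Pool.Agent.U115.GE.Class a b D := by
  refine and_congr_right fun _ => and_congr_right fun _ => forall₂_congr fun p hp => ?_
  have hpp := Nat.prime_of_mem_primeFactors hp
  exact or_congr ⟨fun h => ⟨hpp, h⟩, fun h => h.2⟩ ⟨fun h => ⟨hpp, h⟩, fun h => h.2⟩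

theorem theta_eq (a b : ℤ) (p : ℕ) : theta a b p = Pool.Agent.U115.GE.thetaG a b p := by
  unfold theta Pool.Agent.U115.GE.thetaG Pool.Agent.U115.GE.RtG
  simp only [Nat.cast_one, mul_one, one_pow]

theorem mat_eq (a b : ℤ) (D : ℕ) : mat a b D = Pool.Agent.U115.GE.mat a b D := by
  ext i j
  have hL : mat a b D i j = if i = j then theta a b i + ∑ l ∈ D.primeFactors.erase i, nonsq i l
    else nonsq i j := rfl
  have hR : Pool.Agent.U115.GE.mat a b D i j =
      if (i : ℕ) = j then Pool.Agent.U115.GE.thetaG a b i +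
        ∑ q ∈ Pool.Agent.U115.GE.ine a b D, Pool.Agent.Y698.SG.nq i q +
        ∑ p ∈ (Pool.Agent.U115.GE.spl a b D).erase i, Pool.Agent.Y698.SG.nq i p
      else Pool.Agent.Y698.SG.nq i j := rfl
  rw [hL, hR]
  by_cases hij : i = j
  · rw [if_pos hij, if_pos (congrArg Subtype.val hij), theta_eq]
    have h1 : D.primeFactors.erase i =
        Pool.Agent.U115.GE.ine a b D ∪ (Pool.Agent.U115.GE.spl a b D).erase i := by
      have h2 : D.primeFactors = Pool.Agent.U115.GE.ine a b D ∪ Pool.Agent.U115.GE.spl a b D := by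
        unfold Pool.Agent.U115.GE.ine Pool.Agent.U115.GE.spl
        rw [Finset.union_comm]
        exact (Finset.filter_union_filter_not_eq _ _).symm
      conv_lhs => rw [h2]
      rw [Finset.erase_union_distrib, Finset.erase_eq_of_notMem
        (fun h => Finset.disjoint_left.1 (Pool.Agent.U115.GE.spl_ine a b D) h i.2)]
    rw [h1, Finset.sum_union (Finset.disjoint_of_subset_right (Finset.erase_subset _ _)
      (Pool.Agent.U115.GE.spl_ine a b D)), ← add_assoc]
    rfl
  · rw [if_neg hij, if_neg (fun h => hij (Subtype.ext h))]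
    rfl

theorem s_eq (a b : ℤ) (D : ℕ) : s a b D = Pool.Agent.U115.GE.cork a b D := by
  unfold s Pool.Agent.U115.GE.cork
  rw [mat_eq]
  rfl

theorem det_iff (a b : ℤ) (D : ℕ) :
    (mat a b D).det ≠ 0 ↔ Pool.Agent.U115.GE.cork a b D = 0 := by
  rw [mat_eq]
  exact (Pool.Agent.U115.GE.cork_zero D).symm

theorem prop_of {a b : ℤ} (hb : ¬ IsSquare b) (hc : ¬ IsSquare (a ^ 2 - 4 * b)) {P : ℕ → Prop}
    (hP : ∀ D, Class a b D → (P D ↔ (mat a b D).det ≠ 0)) :
    Proportion a b P (∏' i : ℕ, (1 - (1 / 2 : ℝ) ^ (2 * i + 1))) := by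
  refine (Pool.Agent.U115.GE.dens hb hc).congr fun X =>
    congrArg₂ (fun a b : ℕ => (a : ℝ) / (b : ℝ)) ?_ ?_
  · refine congrArg Finset.card (Finset.ext fun D => ?_)
    rw [Finset.mem_filter, Finset.mem_filter]
    refine and_congr_right fun _ => ?_
    rw [← class_iff, ← det_iff]
    exact and_congr_right fun h => (hP D h).symm
  · refine congrArg Finset.card (Finset.ext fun D => ?_)
    rw [Finset.mem_filter, Finset.mem_filter, class_iff]

/-- **`Ш[2^∞]` of the quadratic twists of the elliptic curves with an isogeny of degree two.** -/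
theorem result (a b : ℤ) (hb : ¬ IsSquare b) (hc : ¬ IsSquare (a ^ 2 - 4 * b)) :
    (∀ D : ℕ, Class a b D →
      (Sel (a * D) (b * D ^ 2)).ncard = 2 ^ s a b D * (Sel a b).ncard ∧
      (Sel (-2 * (a * D)) ((a * D) ^ 2 - 4 * (b * D ^ 2))).ncard =
        2 ^ s a b D * (Sel (-2 * a) (a ^ 2 - 4 * b)).ncard ∧
      Finite {x : Sha (E a b D) // 2 • x = 0} ∧
      4 * 2 ^ rk (E a b D) * Nat.card {x : Sha (E a b D) // 2 • x = 0} ≤
        4 ^ s a b D * ((Sel a b).ncard * (Sel (-2 * a) (a ^ 2 - 4 * b)).ncard) ∧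
      (Finite (E a b D).toAffine.Point → 2 ^ s a b D ≤ Nat.card {x : Sha (E a b D) // 2 • x = 0}) ∧
      ((Sel a b).ncard * (Sel (-2 * a) (a ^ 2 - 4 * b)).ncard = 4 →
        (TrivialTwo a b D ↔ (mat a b D).det ≠ 0))) ∧
    Proportion a b (fun D => (mat a b D).det ≠ 0)
      (∏' i : ℕ, (1 - (1 / 2 : ℝ) ^ (2 * i + 1))) ∧
    (∀ D : ℕ, (mat a b D).det ≠ 0 ↔ s a b D = 0) ∧
    ((Sel a b).ncard * (Sel (-2 * a) (a ^ 2 - 4 * b)).ncard = 4 →
      Proportion a b (TrivialTwo a b) (∏' i : ℕ, (1 - (1 / 2 : ℝ) ^ (2 * i + 1)))) ∧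
    0.4194 < ∏' i : ℕ, (1 - (1 / 2 : ℝ) ^ (2 * i + 1)) ∧
    ∏' i : ℕ, (1 - (1 / 2 : ℝ) ^ (2 * i + 1)) < 0.4195 ∧
    (Sel 13 128).ncard * (Sel (-2 * 13) (13 ^ 2 - 4 * 128)).ncard = 4 := by
  have hb0 : b ≠ 0 := by
    rintro rfl
    exact hb ⟨0, by norm_num⟩
  have hc0 : a ^ 2 - 4 * b ≠ 0 := by
    intro h
    exact hc ⟨0, by rw [h]; norm_num⟩
  have hG := Pool.Agent.U739.GE.t_GOOD
  have hB := Pool.Agent.U796.GE.t_BND
  have key : ∀ D : ℕ, Class a b D →
      (Sel a b).ncard * (Sel (-2 * a) (a ^ 2 - 4 * b)).ncard = 4 →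
      (TrivialTwo a b D ↔ (mat a b D).det ≠ 0) := by
    intro D h h4
    have h' := (class_iff a b D).1 h
    have h1 := (Pool.Agent.U115.GE.class_hg hb0 hc0 h').iff hG hB hb hc h4
      (Pool.Agent.U115.GE.prod_eq h.1)
    rw [Pool.Agent.U115.GE.class_kap hb0 hc0 h'] at h1
    rw [det_iff]
    refine Iff.trans h1 ?_
    constructor
    · intro h2
      by_contra h3
      have := Nat.one_lt_two_pow h3
      omega
    · intro h2
      rw [h2, pow_zero]
  refine ⟨fun D h => ?_, prop_of hb hc fun D _ => Iff.rfl, fun D => ?_,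
    fun h4 => prop_of hb hc fun D h => key D h h4, ?_⟩
  · have h' := (class_iff a b D).1 h
    have hH := Pool.Agent.U115.GE.class_hg hb0 hc0 h'
    have hk := Pool.Agent.U115.GE.class_kap hb0 hc0 h'
    have hD := Pool.Agent.U115.GE.prod_eq (a := a) (b := b) h.1
    obtain ⟨h1, h2⟩ := hH.bound hG hB hD
    have e1 := hH.sel_eq hG
    have e2 := hH.sel_eq' hG
    rw [← hD, hk, ← s_eq] at e1 e2
    refine ⟨e1, e2, h1, ?_, fun hf => ?_, key D h⟩
    · rw [hk, ← s_eq, ← pow_mul, mul_comm (s a b D) 2, pow_mul] at h2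
      exact h2
    · have h3 := hH.conv hG hB hb hc hD hf
      rw [hk, ← s_eq] at h3
      exact h3
  · rw [det_iff, s_eq]
  · obtain ⟨-, -, -, h1, h2⟩ := Pool.Agent.Y948.CQ.t_C2
    obtain ⟨e1, e2⟩ := Pool.Agent.U115.GE.sel_X14
    refine ⟨h1, h2, ?_⟩
    have e1' : (Sel 13 128).ncard = 2 := e1
    have e2' : (Sel (-2 * 13) (13 ^ 2 - 4 * 128)).ncard = 2 := e2
    rw [e1', e2']

end Pool.Agent.Results.MP_e23604_nt.ExactProportionTwoIsogeny
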