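import Mathlib
import Pool.Agent.U214.UN.Fam
import Pool.Agent.TH841.SH.ShaDef
import Pool.Agent.U409.SH.Tor
import Pool.Agent.U214.PT.ShaQ
import Pool.Agent.U214.GT.Asm

/-!
# All moments of `2 ^ rank * #Ш[2]` in short intervals of one-parameter families

Let `A, B, D` be polynomials with integer coefficients of any degrees, `D ≠ 0`, such that
`A B (A - B)` is squarefree over `ℚ` and every irreducible factor over `ℚ` of `A B (A - B)` divides
`D` to an even power. For the curves `E_t : y² = x (x - A(t) D(t)) (x - B(t) D(t))` over `ℚ`, every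
`r` and every `K` the `r`-th moment of `2 ^ rank * #Ш(E_t/ℚ)[2]` over the `t` with `u < t ≤ u + X`
and `E_t` nonsingular is at most `C (1 + log X) ^ kap`, uniformly in the integers `|u| ≤ X ^ K`, with
an explicit `kap = kap r A B`. It is `0` for all `r` if `A` and `B` are constant (quadratic twists of
a curve with full 2-torsion by the values of an arbitrary polynomial, for instance by all the
integers of the interval `(N, N + N ^ θ]` for any fixed `θ > 0`).
-/

set_option autoImplicit false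

namespace Pool.Agent.Results.MP_e23604_nt.ShortIntervals

open Finset Polynomial
open Pool.Agent.TH841.SH.D (ShaTor rk)

/-- the curve `y² = x (x - a) (x - b)` over `ℚ` -/
def E (a b : ℤ) : WeierstrassCurve ℚ := ⟨0, -((a : ℚ) + b), 0, (a : ℚ) * b, 0⟩

/-- `2 ^ rank * #Ш[2]` for the elliptic curve `W` over `ℚ` (`ShaTor W 2` are the elements of the
Tate-Shafarevich group killed by `2`, `rk W` is the rank of the group of the rational points) -/
noncomputable def M (W : WeierstrassCurve ℚ) : ℕ := 2 ^ rk W * Nat.card (ShaTor W 2)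

/-- `f` as a polynomial over `ℚ` -/
noncomputable def q (f : ℤ[X]) : ℚ[X] := f.map (Int.castRingHom ℚ)

/-- the number of the irreducible factors of `f` over `ℚ` -/
noncomputable def n (f : ℤ[X]) : ℕ := (UniqueFactorizationMonoid.normalizedFactors (q f)).card

/-- the exponent: the largest of `0` and the three numbers
`(2 ^ r - 1) * (n F - (n G + n H) / 2 ^ r)`, `{F, G, H} = {A, B, A - B}` -/
noncomputable def kap (r : ℕ) (A B : ℤ[X]) : ℝ :=
  max 0 (max (((2 : ℝ) ^ r - 1) * (n A - ((n B : ℝ) + n (A - B)) / 2 ^ r))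
    (max (((2 : ℝ) ^ r - 1) * (n B - ((n A : ℝ) + n (A - B)) / 2 ^ r))
      (((2 : ℝ) ^ r - 1) * (n (A - B) - ((n A : ℝ) + n B) / 2 ^ r))))

/-- the integers `t` with `u < t ≤ u + X` for which the curve is nonsingular -/
noncomputable def Int1 (A B D : ℤ[X]) (u : ℤ) (X : ℕ) : Finset ℤ :=
  (Ioc u (u + X)).filter (fun t => (A * B * (A - B) * D).eval t ≠ 0)

/-- All the moments of `2 ^ rank * #Ш[2]` in short intervals. -/
theorem result (A B D : ℤ[X]) (hD : D ≠ 0) (hS : Squarefree (q (A * B * (A - B))))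
    (hev : ∀ P : ℚ[X], Irreducible P → P ∣ q (A * B * (A - B)) → Even (multiplicity P (q D))) :
    (∀ t : ℤ, (A * B * (A - B) * D).eval t ≠ 0 →
      Finite (ShaTor (E (A.eval t * D.eval t) (B.eval t * D.eval t)) 2)) ∧
    ∀ r K : ℕ, ∃ C : ℝ, ∀ X : ℕ, 1 ≤ X → ∀ u : ℤ, |u| ≤ (X : ℤ) ^ K →
      ∑ t ∈ Int1 A B D u X, (M (E (A.eval t * D.eval t) (B.eval t * D.eval t)) : ℝ) ^ r ≤
        C * (X * (1 + Real.log X) ^ kap r A B) ∧
      ∀ R : ℕ, (((Int1 A B D u X).filter
        (fun t => 2 ^ R ≤ M (E (A.eval t * D.eval t) (B.eval t * D.eval t)))).card : ℝ) ≤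
          C / 2 ^ (r * R) * (X * (1 + Real.log X) ^ kap r A B) := by
  classical
  refine ⟨fun t ht => ?_, fun r K => ?_⟩
  · rw [eval_mul, eval_mul, eval_mul, eval_sub] at ht
    have hd := right_ne_zero_of_mul ht
    have h1 := left_ne_zero_of_mul ht
    have hab := right_ne_zero_of_mul h1
    have h2 := left_ne_zero_of_mul h1
    exact Pool.Agent.U409.SH.fin_tor (Pool.Agent.U409.SH.fin2 _ _
      (mul_ne_zero (left_ne_zero_of_mul h2) hd) (mul_ne_zero (right_ne_zero_of_mul h2) hd)
      (fun h => hab (by rw [mul_right_cancel₀ hd h, sub_self])))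
  obtain ⟨C, hC⟩ := Pool.Agent.U214.UN.famU Pool.Agent.U214.GT.qq_QL hD hS hev (r := r)
    (e := kap r A B) (le_max_left _ _)
    ((le_max_left _ _).trans (le_max_right _ _))
    ((le_max_left _ _).trans ((le_max_right _ _).trans (le_max_right _ _)))
    ((le_max_right _ _).trans ((le_max_right _ _).trans (le_max_right _ _))) K
  have hM : ∀ a b : ℤ, (Pool.Agent.U409.SH.qq a b : ℝ) = (M (E a b) : ℝ) := by
    intro a b
    rw [Pool.Agent.U409.SH.qq_eq]
    exact congrArg (fun x : ℕ => (x : ℝ)) (Pool.Agent.U409.SH.Mn_eq _).symm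
  have hC' : ∀ X : ℕ, 1 ≤ X → ∀ u : ℤ, |u| ≤ (X : ℤ) ^ K →
      ∑ t ∈ Int1 A B D u X, (M (E (A.eval t * D.eval t) (B.eval t * D.eval t)) : ℝ) ^ r ≤
        C * (X * (1 + Real.log X) ^ kap r A B) := fun X hX u hu => by
    have h1 := hC X u hX (by zify; exact hu)
    simp only [hM] at h1
    exact h1
  refine ⟨C, fun X hX u hu => ⟨hC' X hX u hu, fun R => ?_⟩⟩
  have h1 := hC' X hX u hu
  rw [div_mul_eq_mul_div, le_div_iff₀ (by positivity)]
  refine le_trans ?_ h1
  rw [← nsmul_eq_mul, ← sum_const]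
  refine (sum_le_sum fun t ht => ?_).trans (sum_le_sum_of_subset_of_nonneg (filter_subset _ _)
    fun t _ _ => pow_nonneg (Nat.cast_nonneg _) _)
  have h2 := (mem_filter.1 ht).2
  have h3 : (2 : ℝ) ^ R ≤ (M (E (A.eval t * D.eval t) (B.eval t * D.eval t)) : ℝ) := by
    exact_mod_cast h2
  rw [mul_comm r R, pow_mul]
  exact pow_le_pow_left₀ (by positivity) h3 r

end Pool.Agent.Results.MP_e23604_nt.ShortIntervals
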